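import Mathlib

set_option autoImplicit false

/-!
Project OR: equidistribution of `log p / a` with weights, against continuous functions.
-/

namespace Pool.Agent.V8H54.OR

open Filter Topology MeasureTheory Set

noncomputable section

/-- the primes up to `X` (the same finset as in the statements) -/
abbrev PX (X : ℕ) : Finset ℕ := (Finset.Icc 1 X).filter Nat.Prime

/-- partial sums of the weights up to `exp b` -/
def WW (w : ℕ → ℝ) (b : ℝ) : ℝ := ∑ p ∈ PX ⌊Real.exp b⌋₊, w p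

lemma mem_PX_exp {b : ℝ} {p : ℕ} : p ∈ PX ⌊Real.exp b⌋₊ ↔ p.Prime ∧ Real.log p ≤ b := by
  simp only [PX, Finset.mem_filter, Finset.mem_Icc]
  constructor
  · rintro ⟨⟨h1, h2⟩, h3⟩
    refine ⟨h3, ?_⟩
    have h4 := (Nat.le_floor_iff (Real.exp_pos b).le).1 h2
    have h5 : (0 : ℝ) < p := by exact_mod_cast h3.pos
    exact (Real.log_le_iff_le_exp h5).2 h4
  · rintro ⟨h3, h4⟩
    have h5 : (0 : ℝ) < p := by exact_mod_cast h3.pos
    exact ⟨⟨h3.one_lt.le, Nat.le_floor ((Real.log_le_iff_le_exp h5).1 h4)⟩, h3⟩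

lemma log_floor {b : ℝ} (hb : 0 ≤ b) : |Real.log ⌊Real.exp b⌋₊ - b| ≤ 1 := by
  have h1 : (1 : ℝ) ≤ Real.exp b := Real.one_le_exp hb
  have h2 : (⌊Real.exp b⌋₊ : ℝ) ≤ Real.exp b := Nat.floor_le (Real.exp_pos b).le
  have h3 : Real.exp b < ⌊Real.exp b⌋₊ + 1 := Nat.lt_floor_add_one _
  have h4 : 1 ≤ ⌊Real.exp b⌋₊ := Nat.le_floor (by exact_mod_cast h1)
  have h5 : (1 : ℝ) ≤ ⌊Real.exp b⌋₊ := by exact_mod_cast h4
  have h6 : Real.log ⌊Real.exp b⌋₊ ≤ b := (Real.log_le_iff_le_exp (by linarith)).2 h2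
  have h7 : b ≤ Real.log ⌊Real.exp b⌋₊ + 1 := by
    have h8 : Real.exp b ≤ ⌊Real.exp b⌋₊ * Real.exp 1 := by
      have := Real.add_one_le_exp (1 : ℝ)
      nlinarith
    have h9 := Real.log_le_log (Real.exp_pos b) h8
    rwa [Real.log_exp, Real.log_mul (by linarith) (Real.exp_pos 1).ne', Real.log_exp] at h9
  rw [abs_le]; constructor <;> linarith

/-- partial sums of weights with a logarithmic asymptotics -/
lemma WW_bound {w : ℕ → ℝ} {L C : ℝ}
    (hW : ∀ N : ℕ, 1 ≤ N → |∑ p ∈ PX N, w p - L * Real.log N| ≤ C) {b : ℝ} (hb : 0 ≤ b) :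
    |WW w b - L * b| ≤ C + |L| := by
  have h1 : (1 : ℝ) ≤ Real.exp b := Real.one_le_exp hb
  have h4 : 1 ≤ ⌊Real.exp b⌋₊ := Nat.le_floor (by exact_mod_cast h1)
  have h2 := hW _ h4
  have h3 := log_floor hb
  have e : WW w b - L * b = (∑ p ∈ PX ⌊Real.exp b⌋₊, w p - L * Real.log ⌊Real.exp b⌋₊) +
      L * (Real.log ⌊Real.exp b⌋₊ - b) := by unfold WW; ring
  rw [e]
  refine (abs_add_le _ _).trans ?_
  rw [abs_mul]
  have : |L| * |Real.log ⌊Real.exp b⌋₊ - b| ≤ |L| * 1 := by gcongr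
  linarith

lemma WW_div_tendsto {w : ℕ → ℝ} {L C : ℝ}
    (hW : ∀ N : ℕ, 1 ≤ N → |∑ p ∈ PX N, w p - L * Real.log N| ≤ C) {s : ℝ} (hs : 0 ≤ s) :
    Tendsto (fun a : ℝ => WW w (a * s) / a) atTop (𝓝 (L * s)) := by
  rw [tendsto_iff_norm_sub_tendsto_zero]
  have h0 : Tendsto (fun a : ℝ => (C + |L|) / a) atTop (𝓝 0) :=
    tendsto_const_nhds.div_atTop tendsto_id
  refine squeeze_zero' (Eventually.of_forall fun _ => norm_nonneg _) ?_ h0
  filter_upwards [eventually_gt_atTop 0] with a ha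
  have h1 := WW_bound hW (b := a * s) (by positivity)
  have e : WW w (a * s) / a - L * s = (WW w (a * s) - L * (a * s)) / a := by field_simp
  rw [e, Real.norm_eq_abs, abs_div, abs_of_pos ha]
  gcongr

/-- the block index -/
def ix (K : ℕ) (a : ℝ) (p : ℕ) : ℕ := ⌈(K : ℝ) * (Real.log p / a)⌉₊

lemma ix_le_iff {K : ℕ} {a : ℝ} (hK : 0 < K) (ha : 0 < a) (p i : ℕ) :
    ix K a p ≤ i ↔ Real.log p ≤ a * ((i : ℝ) / K) := by
  unfold ix
  rw [Nat.ceil_le]
  have hK' : (0 : ℝ) < K := by exact_mod_cast hK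
  constructor
  · intro h
    have e : Real.log p = (K * (Real.log p / a)) * (a / K) := by field_simp
    rw [e]
    calc _ ≤ (i : ℝ) * (a / K) := by gcongr
      _ = _ := by ring
  · intro h
    calc (K : ℝ) * (Real.log p / a) ≤ K * ((a * ((i : ℝ) / K)) / a) := by gcongr
      _ = i := by field_simp

lemma ix_pos {K : ℕ} {a : ℝ} (hK : 0 < K) (ha : 0 < a) {p : ℕ} (hp : p.Prime) : 1 ≤ ix K a p := by
  unfold ix
  rw [Nat.one_le_iff_ne_zero, ← Nat.pos_iff_ne_zero, Nat.ceil_pos]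
  have hK' : (0 : ℝ) < K := by exact_mod_cast hK
  have : 0 < Real.log p := Real.log_pos (by exact_mod_cast hp.one_lt)
  positivity

lemma fiber_sum (w : ℕ → ℝ) {K : ℕ} {a : ℝ} (hK : 0 < K) (ha : 0 < a) {i : ℕ} (hi : 1 ≤ i) (hiK : i ≤ K) :
    ∑ p ∈ (PX ⌊Real.exp a⌋₊).filter (fun p => ix K a p = i), w p =
      WW w (a * ((i : ℝ) / K)) - WW w (a * (((i - 1 : ℕ) : ℝ) / K)) := by
  have hK' : (0 : ℝ) < K := by exact_mod_cast hK
  have hsub : PX ⌊Real.exp (a * (((i - 1 : ℕ) : ℝ) / K))⌋₊ ⊆ PX ⌊Real.exp (a * ((i : ℝ) / K))⌋₊ := by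
    intro p hp
    rw [mem_PX_exp] at hp ⊢
    refine ⟨hp.1, hp.2.trans ?_⟩
    have : ((i - 1 : ℕ) : ℝ) ≤ i := by exact_mod_cast Nat.sub_le i 1
    gcongr
  unfold WW
  rw [← Finset.sum_sdiff hsub, add_sub_cancel_right]
  refine Finset.sum_congr ?_ fun _ _ => rfl
  ext p
  rw [Finset.mem_filter, Finset.mem_sdiff, mem_PX_exp, mem_PX_exp, mem_PX_exp]
  constructor
  · rintro ⟨⟨h1, h2⟩, h3⟩
    refine ⟨⟨h1, (ix_le_iff hK ha p i).1 h3.le⟩, ?_⟩
    rintro ⟨-, h4⟩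
    have := (ix_le_iff hK ha p (i - 1)).2 h4
    omega
  · rintro ⟨⟨h1, h2⟩, h3⟩
    refine ⟨⟨h1, h2.trans ?_⟩, ?_⟩
    · have : (i : ℝ) ≤ K := by exact_mod_cast hiK
      have h5 : (i : ℝ) / K ≤ 1 := (div_le_one hK').2 this
      nlinarith
    · have h4 := (ix_le_iff hK ha p i).2 h2
      have h5 : ¬ (ix K a p ≤ i - 1) := fun h => h3 ⟨h1, (ix_le_iff hK ha p (i - 1)).1 h⟩
      omega

/-- Riemann sums of a function with a modulus of continuity -/
lemma riemann {g : ℝ → ℝ} (hg : ContinuousOn g (Icc 0 1)) {K : ℕ} (hK : 0 < K) {ε : ℝ}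
    (hu : ∀ x ∈ Icc (0:ℝ) 1, ∀ y ∈ Icc (0:ℝ) 1, |x - y| ≤ 1 / K → |g x - g y| ≤ ε) :
    |(∫ x in (0:ℝ)..1, g x) - ∑ i ∈ Finset.range K, g (((i + 1 : ℕ) : ℝ) / K) / K| ≤ ε := by
  have hK' : (0 : ℝ) < K := by exact_mod_cast hK
  have hint : ∀ i < K, IntervalIntegrable g volume (((i : ℕ) : ℝ) / K) (((i + 1 : ℕ) : ℝ) / K) := by
    intro i hi
    have h1 : (((i + 1 : ℕ) : ℝ)) / K ≤ 1 := by
      rw [div_le_one hK']; exact_mod_cast hi
    have h2 : ((i : ℕ) : ℝ) / K ≤ ((i + 1 : ℕ) : ℝ) / K := by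
      have : ((i : ℕ) : ℝ) ≤ ((i + 1 : ℕ) : ℝ) := by push_cast; linarith
      gcongr
    refine ContinuousOn.intervalIntegrable (hg.mono ?_)
    rw [uIcc_of_le h2]
    exact Icc_subset_Icc (by positivity) h1
  have hsum := intervalIntegral.sum_integral_adjacent_intervals (a := fun i : ℕ => (i : ℝ) / K) (n := K) hint
  have e0 : ((0 : ℕ) : ℝ) / K = 0 := by simp
  have e1 : ((K : ℕ) : ℝ) / K = 1 := div_self hK'.ne'
  simp only [e0, e1] at hsum
  rw [← hsum, ← Finset.sum_sub_distrib]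
  refine (Finset.abs_sum_le_sum_abs _ _).trans ?_
  have hb : ∀ i ∈ Finset.range K, |(∫ x in (((i : ℕ) : ℝ) / K)..(((i + 1 : ℕ) : ℝ) / K), g x) -
      g (((i + 1 : ℕ) : ℝ) / K) / K| ≤ ε / K := by
    intro i hi
    have hi' := Finset.mem_range.1 hi
    have h1 : (((i + 1 : ℕ) : ℝ)) / K ≤ 1 := by
      rw [div_le_one hK']; exact_mod_cast hi'
    have h2 : ((i : ℕ) : ℝ) / K ≤ ((i + 1 : ℕ) : ℝ) / K := by
      have : ((i : ℕ) : ℝ) ≤ ((i + 1 : ℕ) : ℝ) := by push_cast; linarith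
      gcongr
    have h0 : (0 : ℝ) ≤ ((i : ℕ) : ℝ) / K := by positivity
    have h3 : ((i + 1 : ℕ) : ℝ) / K - ((i : ℕ) : ℝ) / K = 1 / K := by push_cast; ring
    have h4 : (∫ x in (((i : ℕ) : ℝ) / K)..(((i + 1 : ℕ) : ℝ) / K), g x) -
      g (((i + 1 : ℕ) : ℝ) / K) / K =
      ∫ x in (((i : ℕ) : ℝ) / K)..(((i + 1 : ℕ) : ℝ) / K), (g x - g (((i + 1 : ℕ) : ℝ) / K)) := by
      rw [intervalIntegral.integral_sub (hint i hi') intervalIntegrable_const,
        intervalIntegral.integral_const, h3, smul_eq_mul]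
      ring
    rw [h4]
    have h5 := intervalIntegral.norm_integral_le_of_norm_le_const (a := ((i : ℕ) : ℝ) / K)
      (b := ((i + 1 : ℕ) : ℝ) / K) (C := ε) (f := fun x => g x - g (((i + 1 : ℕ) : ℝ) / K)) (by
        intro x hx
        rw [uIoc_of_le h2] at hx
        refine hu x ⟨h0.trans hx.1.le, hx.2.trans h1⟩ _ ⟨by positivity, h1⟩ ?_
        rw [abs_le]; constructor <;> [linarith [hx.1]; linarith [hx.2]])
    rw [Real.norm_eq_abs, h3, abs_of_pos (by positivity : (0:ℝ) < 1 / K)] at h5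
    calc _ ≤ _ := h5
      _ = ε / K := by ring
  refine (Finset.sum_le_sum hb).trans ?_
  rw [Finset.sum_const, Finset.card_range, nsmul_eq_mul]
  apply le_of_eq
  field_simp

/-- equidistribution -/
theorem equid {w : ℕ → ℝ} {L C C1 : ℝ} (hw : ∀ p : ℕ, p.Prime → |w p| ≤ Real.log p / p)
    (hW : ∀ N : ℕ, 1 ≤ N → |∑ p ∈ PX N, w p - L * Real.log N| ≤ C)
    (hM : ∀ N : ℕ, 1 ≤ N → |∑ p ∈ PX N, Real.log p / p - Real.log N| ≤ C1)
    {g : ℝ → ℝ} (hg : ContinuousOn g (Icc 0 1)) :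
    Tendsto (fun a : ℝ => ∑ p ∈ PX ⌊Real.exp a⌋₊, w p * g (Real.log p / a) / a) atTop
      (𝓝 (L * ∫ x in (0:ℝ)..1, g x)) := by
  rw [Metric.tendsto_nhds]
  intro ε hε
  -- the modulus of continuity
  set ε1 : ℝ := ε / (2 * (|L| + 4)) with hε1
  have hL0 : 0 ≤ |L| := abs_nonneg L
  have hε1p : 0 < ε1 := by positivity
  obtain ⟨K, hK, hu⟩ : ∃ K : ℕ, 0 < K ∧ ∀ x ∈ Icc (0:ℝ) 1, ∀ y ∈ Icc (0:ℝ) 1, |x - y| ≤ 1 / K →
      |g x - g y| ≤ ε1 := by
    have huc := isCompact_Icc.uniformContinuousOn_of_continuous hg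
    rw [Metric.uniformContinuousOn_iff] at huc
    obtain ⟨δ, hδ, h⟩ := huc ε1 hε1p
    obtain ⟨K, hK⟩ := exists_nat_gt (1 / δ)
    have hK0 : (0 : ℝ) < K := lt_trans (by positivity) hK
    refine ⟨K, by exact_mod_cast hK0, fun x hx y hy hxy => ?_⟩
    have h1 : (1 : ℝ) / K < δ := by
      rw [div_lt_iff₀ hK0]
      rw [div_lt_iff₀ hδ] at hK
      linarith
    have h2 := h x hx y hy (by rw [Real.dist_eq]; exact lt_of_le_of_lt hxy h1)
    rw [Real.dist_eq] at h2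
    exact h2.le
  have hK' : (0 : ℝ) < K := by exact_mod_cast hK
  -- the limit of the step sums
  have hstep : Tendsto (fun a : ℝ => ∑ i ∈ Finset.range K, g (((i + 1 : ℕ) : ℝ) / K) *
      ((WW w (a * (((i + 1 : ℕ) : ℝ) / K)) - WW w (a * (((i : ℕ) : ℝ) / K))) / a)) atTop
      (𝓝 (∑ i ∈ Finset.range K, g (((i + 1 : ℕ) : ℝ) / K) * (L * (1 / K)))) := by
    refine tendsto_finsetSum _ fun i hi => ?_
    refine Tendsto.const_mul _ ?_
    have h1 := WW_div_tendsto hW (s := ((i + 1 : ℕ) : ℝ) / K) (by positivity)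
    have h2 := WW_div_tendsto hW (s := ((i : ℕ) : ℝ) / K) (by positivity)
    have h3 := h1.sub h2
    have e : L * (((i + 1 : ℕ) : ℝ) / K) - L * (((i : ℕ) : ℝ) / K) = L * (1 / K) := by
      push_cast; ring
    rw [e] at h3
    refine h3.congr fun a => ?_
    ring
  rw [Metric.tendsto_nhds] at hstep
  have hstep' := hstep (ε / 4) (by positivity)
  have hMt := WW_div_tendsto (w := fun p => Real.log p / p) (L := 1) (C := C1)
    (by simpa using hM) (s := 1) (by norm_num)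
  have hMt' : ∀ᶠ a : ℝ in atTop, WW (fun p => Real.log p / p) a / a ≤ 2 := by
    simp only [mul_one] at hMt
    exact (hMt.eventually (gt_mem_nhds (show (1:ℝ) < 2 by norm_num))).mono fun _ h => h.le
  filter_upwards [hstep', hMt', eventually_gt_atTop 0] with a h1 h2 ha
  rw [Real.dist_eq] at h1 ⊢
  -- the approximation by the step sums
  have happ : |∑ p ∈ PX ⌊Real.exp a⌋₊, w p * g (Real.log p / a) / a -
      ∑ i ∈ Finset.range K, g (((i + 1 : ℕ) : ℝ) / K) *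
      ((WW w (a * (((i + 1 : ℕ) : ℝ) / K)) - WW w (a * (((i : ℕ) : ℝ) / K))) / a)| ≤ 2 * ε1 := by
    have e1 : ∑ i ∈ Finset.range K, g (((i + 1 : ℕ) : ℝ) / K) *
      ((WW w (a * (((i + 1 : ℕ) : ℝ) / K)) - WW w (a * (((i : ℕ) : ℝ) / K))) / a) =
      ∑ i ∈ Finset.range K, ∑ p ∈ (PX ⌊Real.exp a⌋₊).filter (fun p => ix K a p - 1 = i),
        w p * g ((ix K a p : ℝ) / K) / a := by
      refine Finset.sum_congr rfl fun i hi => ?_
      have hi' := Finset.mem_range.1 hi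
      have h3 := fiber_sum w hK ha (i := i + 1) (by omega) (by omega)
      rw [Nat.add_sub_cancel] at h3
      rw [← h3, Finset.sum_div, Finset.mul_sum]
      have e2 : (PX ⌊Real.exp a⌋₊).filter (fun p => ix K a p = i + 1) =
          (PX ⌊Real.exp a⌋₊).filter (fun p => ix K a p - 1 = i) := by
        refine Finset.filter_congr fun p hp => ?_
        have := ix_pos hK ha (mem_PX_exp.1 hp).1
        omega
      rw [← e2]
      refine Finset.sum_congr rfl fun p hp => ?_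
      rw [(Finset.mem_filter.1 hp).2]
      ring
    have e3 : ∑ i ∈ Finset.range K, ∑ p ∈ (PX ⌊Real.exp a⌋₊).filter (fun p => ix K a p - 1 = i),
        w p * g ((ix K a p : ℝ) / K) / a = ∑ p ∈ PX ⌊Real.exp a⌋₊, w p * g ((ix K a p : ℝ) / K) / a := by
      refine Finset.sum_fiberwise_of_maps_to (fun p hp => ?_) _
      have h3 := mem_PX_exp.1 hp
      have h4 := ix_pos hK ha h3.1
      have h5 : ix K a p ≤ K := (ix_le_iff hK ha p K).2 (by rw [div_self hK'.ne', mul_one]; exact h3.2)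
      rw [Finset.mem_range]; omega
    rw [e1, e3, ← Finset.sum_sub_distrib]
    refine (Finset.abs_sum_le_sum_abs _ _).trans ?_
    have h5 : ∀ p ∈ PX ⌊Real.exp a⌋₊, |w p * g (Real.log p / a) / a - w p * g ((ix K a p : ℝ) / K) / a| ≤
        ε1 * (Real.log p / p / a) := by
      intro p hp
      have h3 := mem_PX_exp.1 hp
      have h4 := ix_pos hK ha h3.1
      have h5 : ix K a p ≤ K := (ix_le_iff hK ha p K).2 (by rw [div_self hK'.ne', mul_one]; exact h3.2)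
      have h6 : (ix K a p : ℝ) ≤ K := by exact_mod_cast h5
      have hl : 0 < Real.log p := Real.log_pos (by exact_mod_cast h3.1.one_lt)
      have h7 : (K : ℝ) * (Real.log p / a) ≤ ix K a p := Nat.le_ceil _
      have h8 : (ix K a p : ℝ) < (K : ℝ) * (Real.log p / a) + 1 := Nat.ceil_lt_add_one (by positivity)
      have h9 : |Real.log p / a - (ix K a p : ℝ) / K| ≤ 1 / K := by
        rw [abs_sub_comm, abs_le]
        have e : (ix K a p : ℝ) / K - Real.log p / a = ((ix K a p : ℝ) - K * (Real.log p / a)) / K := by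
          field_simp
        rw [e]
        constructor
        · have : 0 ≤ ((ix K a p : ℝ) - K * (Real.log p / a)) / K := div_nonneg (by linarith) hK'.le
          have : 0 < 1 / (K : ℝ) := by positivity
          linarith
        · gcongr; linarith
      have h10 := hu (Real.log p / a) ⟨by positivity, (div_le_one ha).2 h3.2⟩ ((ix K a p : ℝ) / K)
        ⟨by positivity, (div_le_one hK').2 h6⟩ h9
      have e : w p * g (Real.log p / a) / a - w p * g ((ix K a p : ℝ) / K) / a =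
        w p * (g (Real.log p / a) - g ((ix K a p : ℝ) / K)) / a := by ring
      rw [e, abs_div, abs_mul, abs_of_pos ha]
      have h11 := hw p h3.1
      calc |w p| * |g (Real.log p / a) - g ((ix K a p : ℝ) / K)| / a
          ≤ (Real.log p / p) * ε1 / a := by gcongr
        _ = _ := by ring
    refine (Finset.sum_le_sum h5).trans ?_
    rw [← Finset.mul_sum, ← Finset.sum_div]
    have : (∑ i ∈ PX ⌊Real.exp a⌋₊, Real.log i / i) / a ≤ 2 := h2
    nlinarith
  have hR := riemann hg hK hu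
  have hR2 : |L * (∫ x in (0:ℝ)..1, g x) - ∑ i ∈ Finset.range K, g (((i + 1 : ℕ) : ℝ) / K) * (L * (1 / K))| ≤
      |L| * ε1 := by
    have e : L * (∫ x in (0:ℝ)..1, g x) - ∑ i ∈ Finset.range K, g (((i + 1 : ℕ) : ℝ) / K) * (L * (1 / K)) =
      L * ((∫ x in (0:ℝ)..1, g x) - ∑ i ∈ Finset.range K, g (((i + 1 : ℕ) : ℝ) / K) / K) := by
      rw [mul_sub, Finset.mul_sum]
      congr 1
      refine Finset.sum_congr rfl fun i _ => by ring
    rw [e, abs_mul]
    gcongr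
  have htot : (|L| + 4) * ε1 = ε / 2 := by rw [hε1]; field_simp
  have hb := abs_le.1 happ
  have hc := abs_lt.1 h1
  have hd := abs_le.1 hR2
  rw [abs_lt]
  constructor
  · nlinarith [hb.1, hb.2, hc.1, hc.2, hd.1, hd.2]
  · nlinarith [hb.1, hb.2, hc.1, hc.2, hd.1, hd.2]

end

end Pool.Agent.V8H54.OR
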