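import Pool.Agent.V8H54.OR.Var

set_option autoImplicit false

/-!
Project OR: the size of the variance (LOWV).
-/

namespace Pool.Agent.V8H54.OR

open Filter Topology MeasureTheory Set
open Pool.Agent.V8Lead.OR (Prm up VN)

noncomputable section

/-- the kernel -/
def kr (N x : ℝ) : ℝ := Real.sin (N * x) ^ 2 / x

lemma kr_cont (N : ℝ) : Continuous (kr N) := by
  have h := gd_cont (β := fun _ => 1) continuous_const N
  have e : kr N = fun x => (1 / 16) * gd (fun _ => 1) N x := by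
    funext x; unfold kr gd; ring
  rw [e]
  exact continuous_const.mul h

lemma kr_nonneg {N x : ℝ} (hx : 0 ≤ x) : 0 ≤ kr N x := by unfold kr; positivity

lemma kr_le1 {N x : ℝ} (hx : 0 ≤ x) : kr N x ≤ N ^ 2 * x := by
  unfold kr
  rcases hx.eq_or_lt with rfl | hx
  · simp
  rw [div_le_iff₀ hx]
  have h2 : |Real.sin (N * x)| ≤ |N * x| := Real.abs_sin_le_abs
  calc Real.sin (N * x) ^ 2 = |Real.sin (N * x)| ^ 2 := (sq_abs _).symm
    _ ≤ |N * x| ^ 2 := by gcongr
    _ = N ^ 2 * x * x := by rw [sq_abs]; ring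

lemma kr_le2 {N x : ℝ} (hx : 0 ≤ x) : kr N x ≤ x⁻¹ := by
  unfold kr
  rw [div_eq_mul_inv]
  exact mul_le_of_le_one_left (by positivity) (Real.sin_sq_le_one _)

lemma kr_upper {N : ℝ} (hN : 1 ≤ N) : ∫ x in (0:ℝ)..1, kr N x ≤ 1 + Real.log N := by
  have hN0 : 0 < N := by linarith
  have h1 : (0:ℝ) ≤ 1 / N := by positivity
  have h2 : 1 / N ≤ 1 := by rw [div_le_one hN0]; exact hN
  rw [← intervalIntegral.integral_add_adjacent_intervals ((kr_cont N).intervalIntegrable 0 (1 / N))
    ((kr_cont N).intervalIntegrable (1 / N) 1)]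
  have h3 : ∫ x in (0:ℝ)..(1 / N), kr N x ≤ ∫ x in (0:ℝ)..(1 / N), N := by
    refine intervalIntegral.integral_mono_on h1 ((kr_cont N).intervalIntegrable _ _)
      intervalIntegrable_const fun x hx => ?_
    refine (kr_le1 hx.1).trans ?_
    have h4 : x * N ≤ 1 := by
      have := hx.2
      rwa [le_div_iff₀ hN0] at this
    nlinarith
  have h4 : ∫ x in (0:ℝ)..(1 / N), N = 1 := by
    rw [intervalIntegral.integral_const, smul_eq_mul, sub_zero]; field_simp
  have h5 : ∫ x in (1 / N)..(1:ℝ), kr N x ≤ ∫ x in (1 / N)..(1:ℝ), x⁻¹ := by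
    refine intervalIntegral.integral_mono_on h2 ((kr_cont N).intervalIntegrable _ _)
      ?_ fun x hx => ?_
    · refine ContinuousOn.intervalIntegrable ?_
      rw [uIcc_of_le h2]
      refine continuousOn_id.inv₀ fun x hx => ?_
      have : 0 < 1 / N := by positivity
      exact (this.trans_le hx.1).ne'
    · exact kr_le2 (h1.trans hx.1)
  have h6 : ∫ x in (1 / N)..(1:ℝ), x⁻¹ = Real.log N := by
    rw [integral_inv_of_pos (by positivity) (by norm_num)]
    congr 1; field_simp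
  linarith

/-- a lower primitive -/
def Gp (N x : ℝ) : ℝ := 1 / 2 * Real.log x - Real.sin (2 * (N * x)) / (4 * (N * x)) + 1 / (4 * (N * x))

lemma Gp_deriv {N x : ℝ} (hN : 0 < N) (hx : 0 < x) :
    HasDerivAt (Gp N) (1 / 2 * x⁻¹ - (Real.cos (2 * (N * x)) * (2 * N) * (4 * (N * x)) -
      Real.sin (2 * (N * x)) * (4 * N)) / (4 * (N * x)) ^ 2 + (0 * (4 * (N * x)) - 1 * (4 * N)) / (4 * (N * x)) ^ 2) x := by
  have h1 : HasDerivAt (fun x : ℝ => 1 / 2 * Real.log x) (1 / 2 * x⁻¹) x :=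
    (Real.hasDerivAt_log hx.ne').const_mul _
  have h2 : HasDerivAt (fun x : ℝ => 2 * (N * x)) (2 * N) x := by
    simpa using ((hasDerivAt_id x).const_mul N).const_mul 2
  have h3 : HasDerivAt (fun x : ℝ => 4 * (N * x)) (4 * N) x := by
    simpa using ((hasDerivAt_id x).const_mul N).const_mul 4
  have h4 : HasDerivAt (fun x : ℝ => Real.sin (2 * (N * x))) (Real.cos (2 * (N * x)) * (2 * N)) x :=
    h2.sin
  have hne : 4 * (N * x) ≠ 0 := by positivity
  exact (h1.sub (h4.div h3 hne)).add ((hasDerivAt_const x (1:ℝ)).div h3 hne)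

lemma Gp_deriv_le {N x : ℝ} (hN : 0 < N) (hx : 0 < x) :
    1 / 2 * x⁻¹ - (Real.cos (2 * (N * x)) * (2 * N) * (4 * (N * x)) -
      Real.sin (2 * (N * x)) * (4 * N)) / (4 * (N * x)) ^ 2 +
      (0 * (4 * (N * x)) - 1 * (4 * N)) / (4 * (N * x)) ^ 2 ≤ kr N x := by
  have e1 : kr N x = 1 / 2 * x⁻¹ - Real.cos (2 * (N * x)) / (2 * x) := by
    unfold kr
    rw [Real.cos_two_mul, Real.cos_sq']
    field_simp
    ring
  rw [e1]
  have e2 : 1 / 2 * x⁻¹ - (Real.cos (2 * (N * x)) * (2 * N) * (4 * (N * x)) -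
      Real.sin (2 * (N * x)) * (4 * N)) / (4 * (N * x)) ^ 2 +
      (0 * (4 * (N * x)) - 1 * (4 * N)) / (4 * (N * x)) ^ 2 =
      1 / 2 * x⁻¹ - Real.cos (2 * (N * x)) / (2 * x) - (1 - Real.sin (2 * (N * x))) / (4 * N * x ^ 2) := by
    field_simp
    ring
  rw [e2]
  have h1 : 0 ≤ (1 - Real.sin (2 * (N * x))) / (4 * N * x ^ 2) := by
    have := Real.sin_le_one (2 * (N * x))
    have : 0 ≤ 1 - Real.sin (2 * (N * x)) := by linarith
    positivity
  linarith

lemma kr_lower {N η : ℝ} (hN : 1 ≤ N) (hη : 0 < η) (h : 1 ≤ N * η) :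
    1 / 2 * Real.log (N * η) - 1 / 2 ≤ ∫ x in (0:ℝ)..η, kr N x := by
  have hN0 : 0 < N := by linarith
  have h1 : (0:ℝ) ≤ 1 / N := by positivity
  have h2 : 1 / N ≤ η := by rw [div_le_iff₀ hN0]; linarith
  have hpos : 0 < 1 / N := by positivity
  rw [← intervalIntegral.integral_add_adjacent_intervals ((kr_cont N).intervalIntegrable 0 (1 / N))
    ((kr_cont N).intervalIntegrable (1 / N) η)]
  have h3 : 0 ≤ ∫ x in (0:ℝ)..(1 / N), kr N x :=
    intervalIntegral.integral_nonneg h1 fun x hx => kr_nonneg hx.1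
  set G' : ℝ → ℝ := fun x => 1 / 2 * x⁻¹ - (Real.cos (2 * (N * x)) * (2 * N) * (4 * (N * x)) -
      Real.sin (2 * (N * x)) * (4 * N)) / (4 * (N * x)) ^ 2 +
      (0 * (4 * (N * x)) - 1 * (4 * N)) / (4 * (N * x)) ^ 2 with hG'
  have hc : ContinuousOn G' (uIcc (1 / N) η) := by
    rw [uIcc_of_le h2]
    have hne : ∀ x ∈ Icc (1 / N) η, x ≠ 0 := fun x hx => (hpos.trans_le hx.1).ne'
    have hne2 : ∀ x ∈ Icc (1 / N) η, (4 * (N * x)) ^ 2 ≠ 0 := fun x hx => by
      have := hpos.trans_le hx.1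
      positivity
    rw [hG']
    refine ContinuousOn.add (ContinuousOn.sub ?_ ?_) ?_
    · exact continuousOn_const.mul (continuousOn_id.inv₀ hne)
    · exact ContinuousOn.div (by fun_prop) (by fun_prop) hne2
    · exact ContinuousOn.div (by fun_prop) (by fun_prop) hne2
  have h4 : ∫ x in (1 / N)..η, G' x = Gp N η - Gp N (1 / N) := by
    refine intervalIntegral.integral_eq_sub_of_hasDerivAt (fun x hx => ?_) hc.intervalIntegrable
    rw [uIcc_of_le h2] at hx
    exact Gp_deriv hN0 (hpos.trans_le hx.1)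
  have h5 : ∫ x in (1 / N)..η, G' x ≤ ∫ x in (1 / N)..η, kr N x := by
    refine intervalIntegral.integral_mono_on h2 hc.intervalIntegrable
      ((kr_cont N).intervalIntegrable _ _) fun x hx => ?_
    exact Gp_deriv_le hN0 (hpos.trans_le hx.1)
  have h6 : 1 / 2 * Real.log η ≤ Gp N η := by
    unfold Gp
    have h7 : Real.sin (2 * (N * η)) / (4 * (N * η)) ≤ 1 / (4 * (N * η)) := by
      have := Real.sin_le_one (2 * (N * η))
      gcongr
    linarith
  have h7 : Gp N (1 / N) ≤ - (1 / 2 * Real.log N) + 1 / 2 := by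
    unfold Gp
    have e1 : N * (1 / N) = 1 := by field_simp
    have e2 : Real.log (1 / N) = - Real.log N := by rw [one_div, Real.log_inv]
    rw [e1, e2]
    have h := Real.neg_one_le_sin (2 * 1)
    generalize Real.sin (2 * 1) = s at h ⊢
    linarith
  have h8 : Real.log (N * η) = Real.log N + Real.log η := Real.log_mul hN0.ne' hη.ne'
  rw [h8]
  linarith

theorem t_LOWV : Pool.Agent.V8Lead.OR.S_LOWV := by
  intro β hβ hβ0
  -- upper bound for the function
  obtain ⟨M, hM⟩ : ∃ M : ℝ, ∀ x ∈ Icc (0:ℝ) 1, |β x| ≤ M :=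
    isCompact_Icc.exists_bound_of_continuousOn hβ.continuousOn
  have hM0 : 0 ≤ M := (abs_nonneg _).trans (hM 0 ⟨le_rfl, zero_le_one⟩)
  -- lower bound near zero
  obtain ⟨η, hη, hη1, hlow⟩ : ∃ η : ℝ, 0 < η ∧ η ≤ 1 ∧ ∀ x ∈ Icc (0:ℝ) η, β 0 / 2 ≤ β x := by
    have h1 : ∀ᶠ x in 𝓝 (0:ℝ), β 0 / 2 < β x :=
      (hβ.tendsto 0).eventually (lt_mem_nhds (by linarith))
    obtain ⟨δ, hδ, h⟩ := Metric.eventually_nhds_iff.1 h1
    refine ⟨min (δ / 2) 1, by positivity, min_le_right _ _, fun x hx => (h ?_).le⟩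
    rw [Real.dist_eq, sub_zero, abs_of_nonneg hx.1]
    have := hx.2.trans (min_le_left _ _)
    linarith
  have hlη : Real.log η ≤ 0 := Real.log_nonpos hη.le hη1
  refine ⟨2 * β 0 ^ 2, 16 * M ^ 2 + 2 * β 0 ^ 2 * (1 - Real.log η) + 1, by positivity, ?_, ?_⟩
  · have : 0 ≤ 2 * β 0 ^ 2 * (1 - Real.log η) := by
      have : 0 ≤ 1 - Real.log η := by linarith
      positivity
    positivity
  intro N hN
  have hN0 : 0 < N := by linarith
  have hlN : 0 ≤ Real.log N := Real.log_nonneg hN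
  have hcont : Continuous fun x => β x ^ 2 * kr N x := (hβ.pow 2).mul (kr_cont N)
  have eV : VN β N = 16 * ∫ x in (0:ℝ)..1, β x ^ 2 * kr N x := rfl
  have hb : 0 ≤ 2 * β 0 ^ 2 * (1 - Real.log η) := by
    have : 0 ≤ 1 - Real.log η := by linarith
    positivity
  constructor
  · -- lower bound
    have hV0 : 0 ≤ VN β N := by
      rw [eV]
      have : 0 ≤ ∫ x in (0:ℝ)..1, β x ^ 2 * kr N x :=
        intervalIntegral.integral_nonneg zero_le_one fun x hx => by
          have := kr_nonneg (N := N) hx.1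
          positivity
      positivity
    by_cases h : 1 ≤ N * η
    · have h1 := kr_lower hN hη h
      have h2 : ∫ x in (0:ℝ)..η, (β 0 / 2) ^ 2 * kr N x ≤ ∫ x in (0:ℝ)..η, β x ^ 2 * kr N x := by
        refine intervalIntegral.integral_mono_on hη.le
          ((continuous_const.mul (kr_cont N)).intervalIntegrable _ _)
          (hcont.intervalIntegrable _ _) fun x hx => ?_
        have h3 := hlow x hx
        have h4 := kr_nonneg (N := N) hx.1
        have : 0 ≤ β 0 / 2 := by positivity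
        gcongr
      have h3 : ∫ x in (0:ℝ)..η, β x ^ 2 * kr N x ≤ ∫ x in (0:ℝ)..1, β x ^ 2 * kr N x := by
        rw [← intervalIntegral.integral_add_adjacent_intervals (hcont.intervalIntegrable 0 η)
          (hcont.intervalIntegrable η 1)]
        have : 0 ≤ ∫ x in η..1, β x ^ 2 * kr N x :=
          intervalIntegral.integral_nonneg hη1 fun x hx => by
            have := kr_nonneg (N := N) (hη.le.trans hx.1)
            positivity
        linarith
      rw [intervalIntegral.integral_const_mul] at h2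
      rw [Real.log_mul hN0.ne' hη.ne'] at h1
      rw [eV]
      have h4 : (β 0 / 2) ^ 2 * (1 / 2 * (Real.log N + Real.log η) - 1 / 2) ≤
          (β 0 / 2) ^ 2 * ∫ x in (0:ℝ)..η, kr N x := by gcongr
      have : 0 ≤ 16 * M ^ 2 := by positivity
      nlinarith
    · push Not at h
      have h1 : Real.log N + Real.log η ≤ 0 := by
        rw [← Real.log_mul hN0.ne' hη.ne']
        exact Real.log_nonpos (by positivity) h.le
      have : 0 ≤ 16 * M ^ 2 := by positivity
      have h2 : 2 * β 0 ^ 2 * Real.log N ≤ 2 * β 0 ^ 2 * (1 - Real.log η) := by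
        have : 0 ≤ 2 * β 0 ^ 2 := by positivity
        exact mul_le_mul_of_nonneg_left (by linarith) this
      linarith
  · -- upper bound
    have h1 : ∫ x in (0:ℝ)..1, β x ^ 2 * kr N x ≤ ∫ x in (0:ℝ)..1, M ^ 2 * kr N x := by
      refine intervalIntegral.integral_mono_on zero_le_one (hcont.intervalIntegrable _ _)
        ((continuous_const.mul (kr_cont N)).intervalIntegrable _ _) fun x hx => ?_
      have h3 := hM x hx
      have h4 := kr_nonneg (N := N) hx.1
      have h5 : β x ^ 2 ≤ M ^ 2 := by rw [← sq_abs]; gcongr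
      gcongr
    rw [intervalIntegral.integral_const_mul] at h1
    have h2 := kr_upper hN
    have h3 : M ^ 2 * ∫ x in (0:ℝ)..1, kr N x ≤ M ^ 2 * (1 + Real.log N) := by gcongr
    rw [eV]
    have h4 : 0 ≤ (2 * β 0 ^ 2 * (1 - Real.log η) + 1) * (1 + Real.log N) := by positivity
    nlinarith

end

end Pool.Agent.V8H54.OR
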