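import Pool.Agent.V8Lead.OR.Stm3
import Pool.Agent.V8Lead.OR.SA
import Pool.Agent.V8H58.OR.Br

set_option autoImplicit false

/-!
Project OR: two different systems of translates of the ordinates cannot be matched (MT).
-/

namespace Pool.Agent.V8H54.OR

open Filter Topology MeasureTheory
open Pool.Agent.V8Lead.OR
open SG (NZ ord)

noncomputable section

/-- number of the points of the system of translates up to `x` -/
def cn {k : ℕ} (a : Fin k → ℝ) (x : ℝ) : ℝ := ∑ i, (NZ (x - a i) : ℝ)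

lemma cn_mono {k : ℕ} (a : Fin k → ℝ) : Monotone (cn a) := by
  intro x y h
  refine Finset.sum_le_sum fun i _ => ?_
  exact_mod_cast SG.NZ_mono (by linarith : x - a i ≤ y - a i)

lemma ord_zero : ord 0 = 0 := by
  have e : {t : ℝ | 0 ≤ NZ t} = Set.univ := by
    ext t; simp
  unfold SG.ord
  rw [e]
  exact Real.sInf_univ

open Classical in
/-- the points of the system in `(x, y]` -/
def AS {k : ℕ} (a : Fin k → ℝ) (x y : ℝ) : Finset (Fin k × ℕ) :=
  Finset.univ.biUnion fun i => (Finset.Ioc (NZ (x - a i)) (NZ (y - a i))).image fun n => (i, n)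

lemma mem_AS {k : ℕ} {a : Fin k → ℝ} {x y : ℝ} {p : Fin k × ℕ} :
    p ∈ AS a x y ↔ 1 ≤ p.2 ∧ x < ord p.2 + a p.1 ∧ ord p.2 + a p.1 ≤ y := by
  classical
  unfold AS
  rw [Finset.mem_biUnion]
  constructor
  · rintro ⟨i, _, h⟩
    rw [Finset.mem_image] at h
    obtain ⟨n, hn, rfl⟩ := h
    rw [Finset.mem_Ioc] at hn
    have h1 : 1 ≤ n := by omega
    have h2 := SG.ord_le_iff h1 (x - a i)
    have h3 := SG.ord_le_iff h1 (y - a i)
    refine ⟨h1, ?_, ?_⟩
    · have : ¬ ord n ≤ x - a i := fun h => by have := h2.1 h; omega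
      simp only
      linarith
    · have := h3.2 hn.2
      simp only
      linarith
  · rintro ⟨h1, h2, h3⟩
    refine ⟨p.1, Finset.mem_univ _, ?_⟩
    rw [Finset.mem_image]
    refine ⟨p.2, ?_, rfl⟩
    rw [Finset.mem_Ioc]
    constructor
    · by_contra h
      have := (SG.ord_le_iff h1 (x - a p.1)).2 (by omega)
      linarith
    · exact (SG.ord_le_iff h1 (y - a p.1)).1 (by linarith)

lemma card_AS {k : ℕ} (a : Fin k → ℝ) {x y : ℝ} (h : x ≤ y) : ((AS a x y).card : ℝ) = cn a y - cn a x := by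
  classical
  unfold AS cn
  rw [Finset.card_biUnion]
  · rw [← Finset.sum_sub_distrib]
    push_cast
    refine Finset.sum_congr rfl fun i _ => ?_
    rw [Finset.card_image_of_injective _ (fun m n h => (Prod.ext_iff.1 h).2), Nat.card_Ioc,
      Nat.cast_sub (SG.NZ_mono (by linarith))]
  · intro i _ j _ hij
    simp only [Function.onFun]
    rw [Finset.disjoint_left]
    intro p hp hq
    rw [Finset.mem_image] at hp hq
    obtain ⟨n, _, rfl⟩ := hp
    obtain ⟨n', _, h'⟩ := hq
    exact hij (Prod.ext_iff.1 h').1.symm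

/-- the matching gives an inequality between the counting functions -/
lemma match_le {k : ℕ} {a b : Fin k → ℝ} {σ : Fin k × ℕ → Fin k × ℕ} {δ W t h x y : ℝ} {m : ℕ}
    (hinj : Set.InjOn σ {p | 1 ≤ p.2 ∧ |(ord p.2 + a p.1) - (ord (σ p).2 + b (σ p).1)| ≤ δ})
    (hm : {p : Fin k × ℕ | 1 ≤ p.2 ∧ t < ord p.2 + a p.1 ∧ ord p.2 + a p.1 ≤ t + h ∧
      δ < |(ord p.2 + a p.1) - (ord (σ p).2 + b (σ p).1)|}.ncard < m)
    (hδ : δ ≤ W) (hx : t ≤ x) (hxy : x ≤ y) (hy : y ≤ t + h) (hW : 0 ≤ W) (hb : ∀ i, b i ≤ x - W) :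
    cn a y - cn a x ≤ m + (cn b (y + W) - cn b (x - W)) := by
  classical
  rw [← card_AS a hxy, ← card_AS b (by linarith : x - W ≤ y + W)]
  set U := {p : Fin k × ℕ | 1 ≤ p.2 ∧ t < ord p.2 + a p.1 ∧ ord p.2 + a p.1 ≤ t + h ∧
      δ < |(ord p.2 + a p.1) - (ord (σ p).2 + b (σ p).1)|} with hU
  have hUf : U.Finite := by
    refine (AS a t (t + h)).finite_toSet.subset ?_
    rintro p ⟨h1, h2, h3, _⟩
    exact Finset.mem_coe.2 (mem_AS.2 ⟨h1, h2, h3⟩)
  have h1 : ((AS a x y).filter fun p => δ < |(ord p.2 + a p.1) - (ord (σ p).2 + b (σ p).1)|).card ≤ m := by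
    have : ((AS a x y).filter fun p => δ < |(ord p.2 + a p.1) - (ord (σ p).2 + b (σ p).1)|) ⊆ hUf.toFinset := by
      intro p hp
      rw [Finset.mem_filter, mem_AS] at hp
      rw [Set.Finite.mem_toFinset]
      exact ⟨hp.1.1, by linarith [hp.1.2.1], by linarith [hp.1.2.2], hp.2⟩
    have h2 := Finset.card_le_card this
    rw [← Set.ncard_eq_toFinset_card U hUf] at h2
    omega
  have h2 : ((AS a x y).filter fun p => ¬ δ < |(ord p.2 + a p.1) - (ord (σ p).2 + b (σ p).1)|).card ≤
      (AS b (x - W) (y + W)).card := by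
    refine Finset.card_le_card_of_injOn σ ?_ ?_
    · intro p hp
      rw [Finset.mem_coe, Finset.mem_filter, mem_AS] at hp
      obtain ⟨⟨h1, h2, h3⟩, h4⟩ := hp
      push Not at h4
      have h5 := abs_le.1 h4
      rw [Finset.mem_coe, mem_AS]
      refine ⟨?_, by linarith [h5.1, h5.2], by linarith [h5.1, h5.2]⟩
      by_contra h6
      have h7 : (σ p).2 = 0 := by omega
      rw [h7, ord_zero] at h5
      have := hb (σ p).1
      linarith [h5.1, h5.2]
    · intro p hp q hq hpq
      rw [Finset.mem_coe, Finset.mem_filter, mem_AS] at hp hq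
      exact hinj ⟨hp.1.1, not_lt.1 hp.2⟩ ⟨hq.1.1, not_lt.1 hq.2⟩ hpq
  have h3 := Finset.card_filter_add_card_filter_not (s := AS a x y)
    (fun p => δ < |(ord p.2 + a p.1) - (ord (σ p).2 + b (σ p).1)|)
  have h4 : (AS a x y).card ≤ m + (AS b (x - W) (y + W)).card := by omega
  exact_mod_cast h4

/-- the pure counting lemma -/
lemma count_lemma {n : ℕ} {D e : ℕ → ℝ} {Y m E : ℝ} (hm : 0 ≤ m) (hE : 0 < E) (hY : 8 * (m + E) ≤ Y)
    (h1 : ∀ j < n, D j ≤ m + e j) (h2 : ∀ j < n, 0 ≤ e j) (h3 : ∑ j ∈ Finset.range n, e j ≤ n * E)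
    (h4 : 8 * (((Finset.range n).filter fun j => |D j| ≤ Y).card : ℝ) ≤ n) :
    ∑ j ∈ Finset.range n, D j ≤ -(n * Y / 2) := by
  classical
  have hY0 : 0 < Y := by linarith
  have h5 : 8 * (((Finset.range n).filter fun j => Y < D j).card : ℝ) ≤ n := by
    have h6 : (((Finset.range n).filter fun j => Y < D j).card : ℝ) * (8 * E) ≤ n * E := by
      calc (((Finset.range n).filter fun j => Y < D j).card : ℝ) * (8 * E)
          = ∑ j ∈ (Finset.range n).filter (fun j => Y < D j), (8 * E) := by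
            rw [Finset.sum_const, nsmul_eq_mul]
        _ ≤ ∑ j ∈ (Finset.range n).filter (fun j => Y < D j), e j := by
            refine Finset.sum_le_sum fun j hj => ?_
            rw [Finset.mem_filter, Finset.mem_range] at hj
            have := h1 j hj.1
            linarith [hj.2]
        _ ≤ ∑ j ∈ Finset.range n, e j := by
            refine Finset.sum_le_sum_of_subset_of_nonneg (Finset.filter_subset _ _) ?_
            intro j hj _
            exact h2 j (Finset.mem_range.1 hj)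
        _ ≤ n * E := h3
    have h7 : (8 * (((Finset.range n).filter fun j => Y < D j).card : ℝ)) * E ≤ n * E := by linarith
    exact le_of_mul_le_mul_right h7 hE
  have h6 : ∀ j ∈ Finset.range n, D j ≤ -Y + (m + e j) +
      ((if |D j| ≤ Y then Y else 0) + (if Y < D j then Y else 0)) := by
    intro j hj
    have hj' := Finset.mem_range.1 hj
    have a1 := h1 j hj'
    have a2 := h2 j hj'
    by_cases c1 : |D j| ≤ Y
    · rw [if_pos c1]
      have : 0 ≤ (if Y < D j then Y else 0) := by split_ifs <;> linarith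
      linarith
    · rw [if_neg c1]
      by_cases c2 : Y < D j
      · rw [if_pos c2]; linarith
      · rw [if_neg c2]
        push Not at c1 c2
        rcases lt_abs.1 c1 with h | h
        · linarith
        · linarith
  refine (Finset.sum_le_sum h6).trans ?_
  rw [Finset.sum_add_distrib, Finset.sum_add_distrib, Finset.sum_add_distrib, Finset.sum_add_distrib,
    Finset.sum_const, Finset.sum_const, Finset.card_range, nsmul_eq_mul, nsmul_eq_mul,
    ← Finset.sum_filter, ← Finset.sum_filter, Finset.sum_const, Finset.sum_const, nsmul_eq_mul, nsmul_eq_mul]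
  have a3 : (((Finset.range n).filter fun j => |D j| ≤ Y).card : ℝ) * Y ≤ n / 8 * Y :=
    mul_le_mul_of_nonneg_right (by linarith) hY0.le
  have a4 : (((Finset.range n).filter fun j => Y < D j).card : ℝ) * Y ≤ n / 8 * Y :=
    mul_le_mul_of_nonneg_right (by linarith) hY0.le
  have a5 : (n : ℝ) * (m + E) ≤ n * (Y / 8) := mul_le_mul_of_nonneg_left (by linarith) (Nat.cast_nonneg _)
  have a6 : 0 ≤ (n : ℝ) * Y := by positivity
  nlinarith

/-- a first moment bound for a monotone function -/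
lemma first_moment {g : ℝ → ℝ} (hg : Monotone g) (h0 : ∀ x, 0 ≤ g x) {A B W : ℝ} (hW : 0 ≤ W) :
    ∫ t in A..B, (g (t + W) - g t) ≤ W * g (B + W) := by
  have hi : ∀ x y, IntervalIntegrable g volume x y := fun x y => hg.intervalIntegrable
  have hiW : ∀ x y, IntervalIntegrable (fun t => g (t + W)) volume x y := fun x y =>
    Monotone.intervalIntegrable (fun u v h => hg (by linarith))
  rw [intervalIntegral.integral_sub (hiW A B) (hi A B), intervalIntegral.integral_comp_add_right (f := g)]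
  have e1 : ∫ t in (A + W)..(B + W), g t = (∫ t in (A + W)..A, g t) + (∫ t in A..B, g t) +
      ∫ t in B..(B + W), g t := by
    rw [intervalIntegral.integral_add_adjacent_intervals (hi _ _) (hi _ _),
      intervalIntegral.integral_add_adjacent_intervals (hi _ _) (hi _ _)]
  have e2 : ∫ t in (A + W)..A, g t = -∫ t in A..(A + W), g t := intervalIntegral.integral_symm _ _
  have e3 : 0 ≤ ∫ t in A..(A + W), g t :=
    intervalIntegral.integral_nonneg (by linarith) fun x _ => h0 x
  have e4 : ∫ t in B..(B + W), g t ≤ ∫ t in B..(B + W), g (B + W) := by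
    refine intervalIntegral.integral_mono_on (by linarith) (hi _ _) intervalIntegrable_const fun x hx => ?_
    exact hg hx.2
  rw [intervalIntegral.integral_const, smul_eq_mul] at e4
  have e5 : (B + W - B) * g (B + W) = W * g (B + W) := by ring
  linarith

/-- the number of the zeros up to `3 T` -/
lemma NZ_three : ∃ C : ℝ, 0 < C ∧ ∀ᶠ T : ℝ in atTop, (NZ (3 * T) : ℝ) ≤ C * (T * Real.log T) := by
  obtain ⟨C, hC, hb⟩ := SG.NZ_nat_bound
  refine ⟨C * 8 + 1, by positivity, ?_⟩
  filter_upwards [eventually_ge_atTop 4, Real.tendsto_log_atTop.eventually_ge_atTop 1,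
    eventually_ge_atTop (NZ 3 : ℝ)] with T hT hL h3
  set m : ℕ := ⌈3 * T⌉₊ with hm
  have hm1 : 3 * T ≤ m := Nat.le_ceil _
  have hm2 : (m : ℝ) ≤ 4 * T := by
    have := (Nat.ceil_lt_add_one (by linarith : 0 ≤ 3 * T)).le
    linarith
  have hm3 : 3 ≤ m := by
    have : (3 : ℝ) ≤ m := by linarith
    exact_mod_cast this
  have h2 := hb m hm3
  have h4 : (NZ (3 * T) : ℝ) ≤ NZ (m : ℝ) := by exact_mod_cast SG.NZ_mono hm1
  have hm0 : (0 : ℝ) < m := by linarith
  have h5 : Real.log m ≤ 2 * Real.log T := by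
    calc Real.log m ≤ Real.log (4 * T) := Real.log_le_log hm0 hm2
      _ ≤ Real.log (T * T) := Real.log_le_log (by linarith) (by nlinarith)
      _ = 2 * Real.log T := by rw [Real.log_mul (by linarith) (by linarith)]; ring
  have h6 : C * m * Real.log m ≤ C * (4 * T) * (2 * Real.log T) := by
    have : 0 ≤ Real.log m := Real.log_natCast_nonneg m
    gcongr
  have h7 : T ≤ T * Real.log T := by nlinarith
  nlinarith

open Classical in
/-- Markov's inequality for counts -/
lemma markov_count (n : ℕ) (S : ℕ → Set ℝ) (hS : ∀ j, MeasurableSet (S j)) {B : ℝ} (hB : ∀ j < n, volume.real (S j) ≤ B)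
    (hf : ∀ j, volume (S j) ≠ ⊤) (hn : 0 < n) (R : Set ℝ)
    (hR : ∀ t ∈ R, (n : ℝ) < 8 * (((Finset.range n).filter fun j => t ∈ S j).card : ℝ)) :
    volume.real R ≤ 8 * B := by
  set f : ℝ → ℝ := fun t => ∑ j ∈ Finset.range n, (S j).indicator (fun _ => (1:ℝ)) t with hfdef
  have hfi : Integrable f := by
    refine integrable_finsetSum _ fun j _ => ?_
    exact (integrable_indicator_iff (hS j)).2 (integrableOn_const (hf j))
  have hint : ∫ t, f t = ∑ j ∈ Finset.range n, volume.real (S j) := by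
    rw [hfdef, integral_finsetSum]
    · refine Finset.sum_congr rfl fun j _ => ?_
      rw [integral_indicator (hS j), setIntegral_const, smul_eq_mul, mul_one]
    · intro j _
      exact (integrable_indicator_iff (hS j)).2 (integrableOn_const (hf j))
  have hcard : ∀ t, f t = (((Finset.range n).filter fun j => t ∈ S j).card : ℝ) := by
    intro t
    rw [hfdef]
    simp only [Set.indicator_apply]
    rw [← Finset.sum_filter, Finset.sum_const, nsmul_eq_mul, mul_one]
  have hf0 : 0 ≤ᵐ[volume] f := Eventually.of_forall fun t => by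
    rw [hcard]; exact Nat.cast_nonneg _
  have hmk := mul_meas_ge_le_integral_of_nonneg hf0 hfi ((n : ℝ) / 8)
  have hsub : R ⊆ {t | (n : ℝ) / 8 ≤ f t} := by
    intro t ht
    have := hR t ht
    rw [Set.mem_ofPred_eq, hcard]
    linarith
  have hn' : (0 : ℝ) < n := by exact_mod_cast hn
  have hfin : volume {t | (n : ℝ) / 8 ≤ f t} ≠ ⊤ := by
    refine ne_top_of_le_ne_top ?_ (measure_mono (t := ⋃ j ∈ Finset.range n, S j) ?_)
    · exact ((measure_biUnion_finset_le _ _).trans_lt (ENNReal.sum_lt_top.2 fun j _ => (hf j).lt_top)).ne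
    · intro t ht
      rw [Set.mem_ofPred_eq, hcard] at ht
      have h1 : 0 < (((Finset.range n).filter fun j => t ∈ S j).card : ℝ) := by
        have : (0:ℝ) < (n : ℝ) / 8 := by positivity
        linarith
      have h2 : 0 < ((Finset.range n).filter fun j => t ∈ S j).card := by exact_mod_cast h1
      obtain ⟨j, hj⟩ := Finset.card_pos.1 h2
      rw [Finset.mem_filter] at hj
      exact Set.mem_biUnion hj.1 hj.2
  have h1 : volume.real R ≤ volume.real {t | (n : ℝ) / 8 ≤ f t} :=
    ENNReal.toReal_mono hfin (measure_mono hsub)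
  have h2 : ∑ j ∈ Finset.range n, volume.real (S j) ≤ n * B := by
    calc _ ≤ ∑ j ∈ Finset.range n, B := Finset.sum_le_sum fun j hj => hB j (Finset.mem_range.1 hj)
      _ = n * B := by rw [Finset.sum_const, Finset.card_range, nsmul_eq_mul]
  rw [hint] at hmk
  have h3 : (n : ℝ) / 8 * volume.real {t | (n : ℝ) / 8 ≤ f t} ≤ n * B := hmk.trans h2
  have h4 : (n : ℝ) * volume.real {t | (n : ℝ) / 8 ≤ f t} ≤ n * (8 * B) := by linarith
  exact h1.trans (le_of_mul_le_mul_left h4 hn')

lemma cn_le {k : ℕ} (b : Fin k → ℝ) {x X : ℝ} (h : ∀ i, x - b i ≤ X) : cn b x ≤ k * (NZ X : ℝ) := by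
  unfold cn
  calc ∑ i, (NZ (x - b i) : ℝ) ≤ ∑ _i : Fin k, (NZ X : ℝ) :=
        Finset.sum_le_sum fun i _ => by exact_mod_cast SG.NZ_mono (h i)
    _ = k * (NZ X : ℝ) := by rw [Finset.sum_const, Finset.card_univ, Fintype.card_fin, nsmul_eq_mul]

lemma cn_nonneg {k : ℕ} (b : Fin k → ℝ) (x : ℝ) : 0 ≤ cn b x :=
  Finset.sum_nonneg fun _ _ => Nat.cast_nonneg _

/-- the contribution of the edges of the windows -/
def eg {k : ℕ} (b : Fin k → ℝ) (r W : ℝ) (j : ℕ) (t : ℝ) : ℝ :=
  (cn b (t + ((j + 1 : ℕ) : ℝ) * r + W) - cn b (t + ((j + 1 : ℕ) : ℝ) * r)) +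
    (cn b (t + (j : ℝ) * r) - cn b (t + (j : ℝ) * r - W))

lemma eg_nonneg {k : ℕ} (b : Fin k → ℝ) {r W : ℝ} (hW : 0 ≤ W) (j : ℕ) (t : ℝ) : 0 ≤ eg b r W j t := by
  unfold eg
  have h1 := cn_mono b (show t + ((j + 1 : ℕ) : ℝ) * r ≤ t + ((j + 1 : ℕ) : ℝ) * r + W by linarith)
  have h2 := cn_mono b (show t + (j : ℝ) * r - W ≤ t + (j : ℝ) * r by linarith)
  linarith

lemma eg_int {k : ℕ} (b : Fin k → ℝ) (r W : ℝ) (j : ℕ) (x y : ℝ) :
    IntervalIntegrable (eg b r W j) volume x y := by
  have h : ∀ c : ℝ, IntervalIntegrable (fun t => cn b (t + c)) volume x y := fun c =>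
    Monotone.intervalIntegrable (fun u v h => cn_mono b (by linarith))
  have e : eg b r W j = fun t => (cn b (t + (((j + 1 : ℕ) : ℝ) * r + W)) - cn b (t + ((j + 1 : ℕ) : ℝ) * r)) +
    (cn b (t + (j : ℝ) * r) - cn b (t + ((j : ℝ) * r - W))) := by
    funext t
    unfold eg
    rw [add_assoc t, add_sub_assoc t]
  rw [e]
  exact ((h _).sub (h _)).add ((h _).sub (h _))

lemma eg_moment {k : ℕ} (b : Fin k → ℝ) {r W T : ℝ} (hr : 0 ≤ r) (hW : 0 ≤ W) (j : ℕ)
    (hj : ((j + 1 : ℕ) : ℝ) * r ≤ 1) (hW1 : W ≤ 1) (hb : ∀ i, 2 - b i ≤ T) :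
    ∫ t in T..(2 * T), eg b r W j t ≤ 2 * (W * (k * (NZ (3 * T) : ℝ))) := by
  have h : ∀ c x y : ℝ, IntervalIntegrable (fun t => cn b (t + c)) volume x y := fun c x y =>
    Monotone.intervalIntegrable (fun u v h => cn_mono b (by linarith))
  have hjr : (j : ℝ) * r ≤ 1 := by
    have : (j : ℝ) ≤ ((j + 1 : ℕ) : ℝ) := by push_cast; linarith
    nlinarith
  set c1 : ℝ := ((j + 1 : ℕ) : ℝ) * r with hc1
  set c2 : ℝ := (j : ℝ) * r - W with hc2
  have e : ∀ t, eg b r W j t = (cn b ((t + W) + c1) - cn b (t + c1)) + (cn b ((t + W) + c2) - cn b (t + c2)) := by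
    intro t
    unfold eg
    have a1 : t + ((j + 1 : ℕ) : ℝ) * r + W = t + W + c1 := by rw [hc1]; ring
    have a2 : t + (j : ℝ) * r = t + W + c2 := by rw [hc2]; ring
    have a3 : t + (j : ℝ) * r - W = t + c2 := by rw [hc2]; ring
    rw [a3, a2, a1]
  simp only [e]
  have i1 : IntervalIntegrable (fun t => cn b ((t + W) + c1) - cn b (t + c1)) volume T (2 * T) := by
    have := (h (W + c1) T (2 * T)).sub (h c1 T (2 * T))
    simpa only [add_assoc] using this
  have i2 : IntervalIntegrable (fun t => cn b ((t + W) + c2) - cn b (t + c2)) volume T (2 * T) := by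
    have := (h (W + c2) T (2 * T)).sub (h c2 T (2 * T))
    simpa only [add_assoc] using this
  rw [intervalIntegral.integral_add i1 i2]
  have m1 := first_moment (g := fun t => cn b (t + c1)) (fun u v h => cn_mono b (by linarith))
    (fun x => cn_nonneg b _) (A := T) (B := 2 * T) hW
  have m2 := first_moment (g := fun t => cn b (t + c2)) (fun u v h => cn_mono b (by linarith))
    (fun x => cn_nonneg b _) (A := T) (B := 2 * T) hW
  have b1 : cn b (2 * T + W + c1) ≤ k * (NZ (3 * T) : ℝ) := cn_le b fun i => by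
    have := hb i
    linarith
  have b2 : cn b (2 * T + W + c2) ≤ k * (NZ (3 * T) : ℝ) := cn_le b fun i => by
    have := hb i
    rw [hc2]
    linarith
  have n1 := mul_le_mul_of_nonneg_left b1 hW
  have n2 := mul_le_mul_of_nonneg_left b2 hW
  linarith

/-- the sets where the edges are large -/
lemma eg_markov {k : ℕ} (b : Fin k → ℝ) {r W T E θ M : ℝ} {n : ℕ} (hr : 0 ≤ r) (hW : 0 ≤ W) (hn : 0 < n)
    (hnr : (n : ℝ) * r ≤ 1) (hW1 : W ≤ 1) (hb : ∀ i, 2 - b i ≤ T) (hT : 0 < T) (hE : 0 < E)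
    (hM : 2 * (W * (k * (NZ (3 * T) : ℝ))) ≤ M) (hME : M ≤ E * (θ * T)) :
    volume.real {t : ℝ | T ≤ t ∧ t ≤ 2 * T ∧ n * E < ∑ j ∈ Finset.range n, eg b r W j t} ≤ θ * T := by
  set f : ℝ → ℝ := fun t => ∑ j ∈ Finset.range n, eg b r W j t with hf
  have hn' : (0 : ℝ) < n := by exact_mod_cast hn
  have hint : ∫ t in T..(2 * T), f t ≤ n * M := by
    rw [hf, intervalIntegral.integral_finsetSum (fun j _ => eg_int b r W j _ _)]
    calc ∑ j ∈ Finset.range n, ∫ t in T..(2 * T), eg b r W j t ≤ ∑ j ∈ Finset.range n, M := by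
          refine Finset.sum_le_sum fun j hj => (eg_moment b hr hW j ?_ hW1 hb).trans hM
          have h1 : ((j + 1 : ℕ) : ℝ) ≤ n := by exact_mod_cast Finset.mem_range.1 hj
          nlinarith
      _ = n * M := by rw [Finset.sum_const, Finset.card_range, nsmul_eq_mul]
  rw [intervalIntegral.integral_of_le (by linarith), ← integral_Icc_eq_integral_Ioc] at hint
  have hfi : IntegrableOn f (Set.Icc T (2 * T)) := by
    rw [integrableOn_Icc_iff_integrableOn_Ioc]
    have : IntervalIntegrable f volume T (2 * T) := by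
      have h1 := IntervalIntegrable.sum (μ := volume) (a := T) (b := 2 * T) (Finset.range n)
        (f := fun j => eg b r W j) (fun j _ => eg_int b r W j _ _)
      have e : f = ∑ j ∈ Finset.range n, (fun j => eg b r W j) j := by
        funext t
        rw [hf, Finset.sum_apply]
      rw [e]
      exact h1
    exact (intervalIntegrable_iff_integrableOn_Ioc_of_le (by linarith)).1 this
  have hf0 : 0 ≤ᵐ[volume.restrict (Set.Icc T (2 * T))] f := Eventually.of_forall fun t =>
    Finset.sum_nonneg fun j _ => eg_nonneg b hW j t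
  have hmk := mul_meas_ge_le_integral_of_nonneg hf0 hfi (n * E)
  have e1 : (volume.restrict (Set.Icc T (2 * T))).real {t | n * E ≤ f t} =
      volume.real ({t | n * E ≤ f t} ∩ Set.Icc T (2 * T)) := by
    unfold Measure.real
    rw [Measure.restrict_apply' measurableSet_Icc]
  rw [e1] at hmk
  have h1 : volume.real {t : ℝ | T ≤ t ∧ t ≤ 2 * T ∧ n * E < f t} ≤
      volume.real ({t | n * E ≤ f t} ∩ Set.Icc T (2 * T)) := by
    refine ENNReal.toReal_mono ?_ (measure_mono ?_)
    · exact ne_top_of_le_ne_top (measure_Icc_lt_top (a := T) (b := 2 * T)).ne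
        (measure_mono Set.inter_subset_right)
    · rintro t ⟨a1, a2, a3⟩
      exact ⟨a3.le, a1, a2⟩
  have h2 : (n * E) * volume.real ({t | n * E ≤ f t} ∩ Set.Icc T (2 * T)) ≤ (n * E) * (θ * T) := by
    refine (hmk.trans hint).trans ?_
    have := mul_le_mul_of_nonneg_left hME hn'.le
    linarith
  exact h1.trans (le_of_mul_le_mul_left h2 (by positivity))

/-- the system of translates at step `s`, as window counts -/
lemma cn_Wc {k : ℕ} (a : Fin k → ℝ) (T s x : ℝ) : cn a (x + s * sp T) - cn a x = ∑ i, Wc T s (x - a i) := by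
  unfold cn
  rw [← Finset.sum_sub_distrib]
  refine Finset.sum_congr rfl fun i _ => ?_
  rw [Wc_sp]
  congr 3
  ring

theorem t_MT' (hAB : S_AB) (hWL : S_WL) : S_MT := by
  classical
  intro k a b hab m w θ hθ
  have hpi := Real.pi_pos
  obtain ⟨C, hC, hNZ⟩ := NZ_three
  set E : ℝ := 8 * |w| * k * C / θ + 1 with hE
  have hE0 : 0 < E := by positivity
  set Y : ℝ := 8 * (m + E) with hY
  have hY0 : 0 < Y := by positivity
  obtain ⟨s, hs, hAB⟩ := hAB k a b hab Y (θ / 64) hY0 (by positivity)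
  replace hAB := hAB s le_rfl
  have hs0 : 0 < s := by linarith
  set κ : ℝ := Y / (8 * (k + 1) * s) with hκ
  have hκ0 : 0 < κ := by positivity
  obtain ⟨s1, hs1, hWL⟩ := hWL κ (θ / (16 * (k + 1))) hκ0 (by positivity)
  obtain ⟨n, hn⟩ := exists_nat_ge (s1 / s)
  have hn0' : (0 : ℝ) < n := lt_of_lt_of_le (by positivity) hn
  have hn0 : 0 < n := by exact_mod_cast hn0'
  have hns : s1 ≤ n * s := by rwa [div_le_iff₀ hs0] at hn
  replace hWL := hWL (n * s) hns
  set A : ℝ := ∑ i, |a i| + ∑ i, |b i| with hA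
  have hA0 : 0 ≤ A := by positivity
  have hAa : ∀ i, |a i| ≤ A := fun i => by
    have := Finset.single_le_sum (f := fun i => |a i|) (fun j _ => abs_nonneg _) (Finset.mem_univ i)
    have h2 : 0 ≤ ∑ i, |b i| := by positivity
    linarith
  have hAb : ∀ i, |b i| ≤ A := fun i => by
    have := Finset.single_le_sum (f := fun i => |b i|) (fun j _ => abs_nonneg _) (Finset.mem_univ i)
    have h2 : 0 ≤ ∑ i, |a i| := by positivity
    linarith
  refine ⟨2 * Real.pi * (n * s), by positivity, ?_⟩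
  filter_upwards [hAB, hWL, hNZ, sp_lim (n * s) 1 one_pos, eventually_gt_atTop 1,
    Real.tendsto_log_atTop.eventually_ge_atTop (|w| + 1), eventually_ge_atTop (4 + A),
    eventually_ge_atTop (128 / θ), eventually_ge_atTop (32 * (k + 1) * A / θ)]
    with T t1 t2 t3 t4 t5 t6 t7 t8 t9 σ hinj
  have hL : 0 < Real.log T := Real.log_pos t5
  have hw0 := abs_nonneg w
  have hT0 : 0 < T := by linarith
  have hθT : 0 < θ * T := by positivity
  set r : ℝ := s * sp T with hr
  have hr0 : 0 < r := mul_pos hs0 (sp_pos t5)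
  have hnr : (n : ℝ) * r ≤ 1 := by rw [hr, ← mul_assoc]; exact t4
  set W : ℝ := |w| / Real.log T with hW
  have hW0 : 0 ≤ W := by positivity
  have hW1 : W ≤ 1 := by rw [hW, div_le_one hL]; linarith
  have hδW : w / Real.log T ≤ W := by
    rw [hW]; have := le_abs_self w; gcongr
  have hH : 2 * Real.pi * (n * s) / Real.log T = n * r := by
    rw [hr]; unfold sp; ring
  -- the four kinds of exceptional sets
  set g : ℝ → ℝ := fun u => ∑ i, Wc T s (u - a i) - ∑ i, Wc T s (u - b i) with hg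
  have hgm : Measurable g := by
    refine Measurable.sub (Finset.measurable_sum _ fun i _ => ?_) (Finset.measurable_sum _ fun i _ => ?_)
    · exact (Pool.Agent.V8H58.OR.Wc_meas T s).comp (measurable_id.sub_const _)
    · exact (Pool.Agent.V8H58.OR.Wc_meas T s).comp (measurable_id.sub_const _)
  set S : ℕ → Set ℝ := fun j => {t | T ≤ t ∧ t ≤ 2 * T ∧ |g (t + min (j * r) 1)| ≤ Y} with hS
  have hSm : ∀ j, MeasurableSet (S j) := by
    intro j
    refine measurableSet_Ici.inter (measurableSet_Iic.inter ?_)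
    exact measurableSet_le (hgm.comp (measurable_id.add_const _)).abs measurable_const
  have hSB : ∀ j < n, volume.real (S j) ≤ θ / 64 * T + 2 := by
    intro j _
    have h1 := shift_meas (fun u => |g u| ≤ Y) T (min (j * r) 1)
    have h2 : |min ((j : ℝ) * r) 1| ≤ 1 := by
      rw [abs_of_nonneg (le_min (by positivity) zero_le_one)]
      exact min_le_right _ _
    have h3 : volume.real {t : ℝ | T ≤ t ∧ t ≤ 2 * T ∧ |g t| ≤ Y} ≤ θ / 64 * T := t1
    calc volume.real (S j) ≤ _ := h1
      _ ≤ _ := by linarith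
  have hSf : ∀ j, volume (S j) ≠ ⊤ := fun j => fin_Icc _ _ _
  set R1 : Set ℝ := {t : ℝ | T ≤ t ∧ t ≤ 2 * T ∧ n * E < ∑ j ∈ Finset.range n, eg b r W j t} with hR1
  set R2 : Set ℝ := {t : ℝ | T ≤ t ∧ t ≤ 2 * T ∧
    (n : ℝ) < 8 * (((Finset.range n).filter fun j => t ∈ S j).card : ℝ)} with hR2
  set R3 : (Fin k → ℝ) → Fin k → Set ℝ := fun c i =>
    {t : ℝ | T ≤ t ∧ t ≤ 2 * T ∧ κ * (n * s) ≤ |Wc T (n * s) (t + -c i) - n * s|} with hR3
  have m1 : volume.real R1 ≤ θ / 4 * T := by
    refine eg_markov b hr0.le hW0 hn0 hnr hW1 (fun i => ?_) hT0 hE0 (M := 2 * |w| * k * C * T) ?_ ?_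
    · have h1 := hAb i
      have h2 := neg_abs_le (b i)
      linarith
    · calc 2 * (W * (k * (NZ (3 * T) : ℝ))) ≤ 2 * (W * (k * (C * (T * Real.log T)))) := by gcongr
        _ = 2 * |w| * k * C * T := by rw [hW]; field_simp
    · have h1 : 8 * |w| * k * C / θ * (θ / 4 * T) = 2 * |w| * k * C * T := by field_simp; ring
      have h2 : 8 * |w| * k * C / θ * (θ / 4 * T) ≤ E * (θ / 4 * T) := by
        apply mul_le_mul_of_nonneg_right _ (by positivity)
        rw [hE]; linarith
      linarith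
  have m2 : volume.real R2 ≤ θ / 4 * T := by
    have h1 := markov_count n S hSm hSB hSf hn0 R2 (fun t ht => by
      refine lt_of_lt_of_eq ht.2.2 ?_
      congr)
    rw [div_le_iff₀ hθ] at t8
    linarith
  have m3 : ∀ c : Fin k → ℝ, (∀ i, |c i| ≤ A) → volume.real (⋃ i, R3 c i) ≤ θ / 8 * T := by
    intro c hc
    have h1 : ∀ i, volume.real (R3 c i) ≤ θ / (16 * (k + 1)) * T + 2 * A := by
      intro i
      have h2 := shift_meas (fun u => κ * (n * s) ≤ |Wc T (n * s) u - n * s|) T (-c i)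
      rw [abs_neg] at h2
      have h3 := hc i
      calc volume.real (R3 c i) ≤ _ := h2
        _ ≤ _ := by linarith
    have h2 : volume.real (⋃ i, R3 c i) ≤ ∑ i, volume.real (R3 c i) := measureReal_iUnion_fintype_le _
    refine h2.trans ((Finset.sum_le_sum fun i _ => h1 i).trans ?_)
    rw [Finset.sum_const, Finset.card_univ, Fintype.card_fin, nsmul_eq_mul]
    rw [div_le_iff₀ hθ] at t9
    have hk0 : (0 : ℝ) ≤ k := Nat.cast_nonneg k
    have h3 : (k : ℝ) * (θ / (16 * (k + 1)) * T) ≤ θ / 16 * T := by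
      have e : (k : ℝ) * (θ / (16 * (k + 1)) * T) = (k / (k + 1)) * (θ / 16 * T) := by field_simp
      rw [e]
      have : (k : ℝ) / (k + 1) ≤ 1 := by rw [div_le_one (by positivity)]; linarith
      exact mul_le_of_le_one_left (by positivity) this
    have h4 : (k : ℝ) * (2 * A) ≤ θ / 16 * T := by nlinarith
    linarith
  -- the inclusion
  have hsub : {t : ℝ | T ≤ t ∧ t ≤ 2 * T ∧ {p : Fin k × ℕ | 1 ≤ p.2 ∧ t < ord p.2 + a p.1 ∧
      ord p.2 + a p.1 ≤ t + 2 * Real.pi * (n * s) / Real.log T ∧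
      w / Real.log T < |(ord p.2 + a p.1) - (ord (σ p).2 + b (σ p).1)|}.ncard < m} ⊆
      (R1 ∪ R2) ∪ ((⋃ i, R3 a i) ∪ (⋃ i, R3 b i)) := by
    rintro t ⟨u1, u2, u3⟩
    rw [hH] at u3
    by_contra hcon
    simp only [Set.mem_union, not_or, Set.mem_iUnion, not_exists] at hcon
    obtain ⟨⟨c1, c2⟩, c3, c4⟩ := hcon
    have c1' : ∑ j ∈ Finset.range n, eg b r W j t ≤ n * E := by
      by_contra h; exact c1 ⟨u1, u2, not_le.1 h⟩
    have c2' : 8 * (((Finset.range n).filter fun j => t ∈ S j).card : ℝ) ≤ n := by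
      by_contra h; exact c2 ⟨u1, u2, not_le.1 h⟩
    have c3' : ∀ i, |Wc T (n * s) (t - a i) - n * s| < κ * (n * s) := by
      intro i; by_contra h
      exact c3 i ⟨u1, u2, by rw [← sub_eq_add_neg]; exact not_lt.1 h⟩
    have c4' : ∀ i, |Wc T (n * s) (t - b i) - n * s| < κ * (n * s) := by
      intro i; by_contra h
      exact c4 i ⟨u1, u2, by rw [← sub_eq_add_neg]; exact not_lt.1 h⟩
    set G : ℕ → ℝ := fun j => cn a (t + (j : ℝ) * r) - cn b (t + (j : ℝ) * r) with hG
    set D : ℕ → ℝ := fun j => G (j + 1) - G j with hD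
    have hDg : ∀ j < n, D j = g (t + min (j * r) 1) := by
      intro j hj
      have h1 : min ((j : ℝ) * r) 1 = j * r := by
        refine min_eq_left ?_
        have : (j : ℝ) ≤ n := by exact_mod_cast hj.le
        nlinarith
      rw [h1, hg, hD, hG]
      simp only
      rw [← cn_Wc a T s, ← cn_Wc b T s]
      have e : t + ((j + 1 : ℕ) : ℝ) * r = t + (j : ℝ) * r + s * sp T := by
        rw [hr]; push_cast; ring
      rw [e]
      ring
    have hD1 : ∀ j < n, D j ≤ m + eg b r W j t := by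
      intro j hj
      have hj1 : ((j + 1 : ℕ) : ℝ) ≤ n := by exact_mod_cast hj
      have hjj : (j : ℝ) ≤ ((j + 1 : ℕ) : ℝ) := by push_cast; linarith
      have hj0 : (0 : ℝ) ≤ j := Nat.cast_nonneg _
      have h1 := match_le (x := t + (j : ℝ) * r) (y := t + ((j + 1 : ℕ) : ℝ) * r) hinj u3 hδW
        (by nlinarith) (by nlinarith) (by nlinarith) hW0 (fun i => by
          have := hAb i
          have := le_abs_self (b i)
          have : 0 ≤ (j : ℝ) * r := by positivity
          linarith)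
      rw [hD, hG]
      unfold eg
      simp only
      linarith
    have hcard : ((Finset.range n).filter fun j => |D j| ≤ Y) = (Finset.range n).filter fun j => t ∈ S j := by
      refine Finset.filter_congr fun j hj => ?_
      rw [hDg j (Finset.mem_range.1 hj)]
      exact ⟨fun h => ⟨u1, u2, h⟩, fun h => h.2.2⟩
    have key := count_lemma (D := D) (e := fun j => eg b r W j t) (Y := Y) (m := m) (E := E)
      (Nat.cast_nonneg _) hE0 le_rfl hD1 (fun j _ => eg_nonneg b hW0 j t) c1' (by rw [hcard]; exact c2')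
    have htel : ∑ j ∈ Finset.range n, D j = G n - G 0 := Finset.sum_range_sub G n
    have hGn : G n - G 0 = ∑ i, Wc T (n * s) (t - a i) - ∑ i, Wc T (n * s) (t - b i) := by
      rw [← cn_Wc a T (n * s), ← cn_Wc b T (n * s), hG]
      have e : t + (n : ℝ) * s * sp T = t + (n : ℝ) * r := by rw [hr]; ring
      simp only [Nat.cast_zero, zero_mul, add_zero]
      rw [e]
      ring
    have hlow : -(2 * k * (κ * (n * s))) ≤ ∑ i, Wc T (n * s) (t - a i) - ∑ i, Wc T (n * s) (t - b i) := by
      have h1 : ∑ _i : Fin k, (n * s - κ * (n * s)) ≤ ∑ i, Wc T (n * s) (t - a i) :=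
        Finset.sum_le_sum fun i _ => by
          have := abs_lt.1 (c3' i)
          linarith [this.1]
      have h2 : ∑ i, Wc T (n * s) (t - b i) ≤ ∑ _i : Fin k, (n * s + κ * (n * s)) :=
        Finset.sum_le_sum fun i _ => by
          have := abs_lt.1 (c4' i)
          linarith [this.2]
      rw [Finset.sum_const, Finset.card_univ, Fintype.card_fin, nsmul_eq_mul] at h1 h2
      nlinarith
    rw [htel, hGn] at key
    have hfin : 2 * k * (κ * (n * s)) < n * Y / 2 := by
      have e : 2 * (k : ℝ) * (κ * (n * s)) = (k / (k + 1)) * (n * Y / 4) := by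
        rw [hκ]; field_simp; ring
      rw [e]
      have h1 : (k : ℝ) / (k + 1) ≤ 1 := by rw [div_le_one (by positivity)]; linarith
      have h2 : (k : ℝ) / (k + 1) * (n * Y / 4) ≤ n * Y / 4 := mul_le_of_le_one_left (by positivity) h1
      have h3 : 0 < (n : ℝ) * Y := by positivity
      linarith
    linarith
  have hfinU : volume ((R1 ∪ R2) ∪ ((⋃ i, R3 a i) ∪ (⋃ i, R3 b i))) ≠ ⊤ := by
    refine ne_top_of_le_ne_top (measure_Icc_lt_top (a := T) (b := 2 * T)).ne (measure_mono ?_)
    rintro t ((h | h) | (h | h))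
    · exact ⟨h.1, h.2.1⟩
    · exact ⟨h.1, h.2.1⟩
    · obtain ⟨i, hi⟩ := Set.mem_iUnion.1 h
      exact ⟨hi.1, hi.2.1⟩
    · obtain ⟨i, hi⟩ := Set.mem_iUnion.1 h
      exact ⟨hi.1, hi.2.1⟩
  refine (ENNReal.toReal_mono hfinU (measure_mono hsub)).trans ?_
  have v1 := measureReal_union_le (μ := volume) (R1 ∪ R2) ((⋃ i, R3 a i) ∪ (⋃ i, R3 b i))
  have v2 := measureReal_union_le (μ := volume) R1 R2
  have v3 := measureReal_union_le (μ := volume) (⋃ i, R3 a i) (⋃ i, R3 b i)
  have v4 := m3 a hAa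
  have v5 := m3 b hAb
  show volume.real _ ≤ θ * T
  linarith

theorem t_MT : S_AB → S_WT → S_WL → S_MT := fun h1 _ h2 => t_MT' h1 h2

end

end Pool.Agent.V8H54.OR
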