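import Pool.Agent.V8Lead.OR.Stm
import Pool.Agent.Y726.AFTM
import Pool.Agent.Helper256.KM.Mertens
import Pool.Agent.V8H54.OR.Equid

set_option autoImplicit false

/-!
Project OR: the sum of the squares of the coefficients (VAR), its twisted form (TWV) and the tail (TAILV).
-/

namespace Pool.Agent.V8H54.OR

open Filter Topology MeasureTheory Set
open Pool.Agent.V8Lead.OR (Prm up VN)

noncomputable section

/-- the limit density -/
def gd (β : ℝ → ℝ) (N x : ℝ) : ℝ := 16 * (β x ^ 2 * (Real.sin (N * x) ^ 2 / x))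

lemma gd_cont {β : ℝ → ℝ} (hβ : Continuous β) (N : ℝ) : Continuous (gd β N) := by
  unfold gd
  refine continuous_const.mul ((hβ.pow 2).mul ?_)
  rw [continuous_iff_continuousAt]
  intro x
  by_cases hx : x = 0
  · subst hx
    have h0 : Real.sin (N * 0) ^ 2 / 0 = 0 := by simp
    rw [ContinuousAt, h0]
    have h1 : Tendsto (fun x : ℝ => N ^ 2 * |x|) (𝓝 0) (𝓝 0) := by
      have : Continuous fun x : ℝ => N ^ 2 * |x| := by fun_prop
      simpa using this.tendsto 0
    refine squeeze_zero_norm (fun x => ?_) h1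
    rw [Real.norm_eq_abs, abs_div, abs_of_nonneg (sq_nonneg _)]
    by_cases hx : x = 0
    · subst hx; simp
    rw [div_le_iff₀ (abs_pos.2 hx)]
    have h2 : |Real.sin (N * x)| ≤ |N * x| := Real.abs_sin_le_abs
    calc Real.sin (N * x) ^ 2 = |Real.sin (N * x)| ^ 2 := (sq_abs _).symm
      _ ≤ |N * x| ^ 2 := by gcongr
      _ = N ^ 2 * |x| * |x| := by rw [abs_mul, mul_pow, sq_abs]; ring
  · exact ContinuousAt.div (by fun_prop) continuousAt_id hx

lemma up_sq {β : ℝ → ℝ} {N a : ℝ} (ha : 0 < a) {p : ℕ} (hp : p.Prime) :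
    up β N a p ^ 2 = Real.log p / p * gd β N (Real.log p / a) / a := by
  have hp0 : (0 : ℝ) < p := by exact_mod_cast hp.pos
  have hl : 0 < Real.log p := Real.log_pos (by exact_mod_cast hp.one_lt)
  unfold up gd
  have e : N * Real.log p / a = N * (Real.log p / a) := by ring
  rw [e, mul_pow, mul_pow, div_pow, Real.sq_sqrt hp0.le]
  field_simp
  ring

theorem t_VAR : Pool.Agent.V8Lead.OR.S_VAR := by
  intro β hβ _ N _
  obtain ⟨C, hC⟩ := Pool.Agent.Helper256.KM.mertens_log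
  have h := equid (w := fun p => Real.log p / p) (L := 1) (C := C) (C1 := C)
    (fun p hp => by
      rw [abs_of_nonneg]
      have : 0 ≤ Real.log p := Real.log_natCast_nonneg p
      positivity)
    (fun N hN => by simpa using hC N hN) hC (g := gd β N) (gd_cont hβ N).continuousOn
  have e : 1 * (∫ x in (0:ℝ)..1, gd β N x) = VN β N := by
    unfold gd VN
    rw [one_mul, intervalIntegral.integral_const_mul]
  rw [e] at h
  refine h.congr' ?_
  filter_upwards [eventually_gt_atTop 0] with a ha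
  refine Finset.sum_congr rfl fun p hp => ?_
  exact (up_sq ha (Finset.mem_filter.1 hp).2).symm

theorem t_TWV : Pool.Agent.V8Lead.OR.S_TWV := by
  intro β hβ _ N c _ hc
  obtain ⟨C, hC⟩ := Pool.Agent.Helper256.KM.mertens_log
  obtain ⟨C2, hC2⟩ := Pool.Agent.Y726.TM.tm c hc
  have h := equid (w := fun p => Real.log p / p * Real.cos (c * Real.log p)) (L := 0) (C := C2) (C1 := C)
    (fun p hp => by
      have h0 : 0 ≤ Real.log p := Real.log_natCast_nonneg p
      rw [abs_mul, abs_of_nonneg (by positivity : 0 ≤ Real.log p / p)]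
      exact mul_le_of_le_one_right (by positivity) (Real.abs_cos_le_one _))
    (fun N hN => by
      rw [zero_mul, sub_zero]
      exact hC2 N) hC (g := gd β N) (gd_cont hβ N).continuousOn
  rw [zero_mul] at h
  refine h.congr' ?_
  filter_upwards [eventually_gt_atTop 0] with a ha
  refine Finset.sum_congr rfl fun p hp => ?_
  rw [up_sq ha (Finset.mem_filter.1 hp).2]
  ring

lemma up_sq_le {β : ℝ → ℝ} {D : ℝ} (hD : ∀ ξ, |β ξ| ≤ D) (N a : ℝ) {p : ℕ} (hp : p.Prime) :
    up β N a p ^ 2 ≤ 16 * D ^ 2 * (1 / p) := by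
  have hp0 : (0 : ℝ) < p := by exact_mod_cast hp.pos
  unfold up
  rw [mul_pow, mul_pow, div_pow, Real.sq_sqrt hp0.le]
  have h1 : β (Real.log p / a) ^ 2 ≤ D ^ 2 := by
    rw [← sq_abs]
    have := hD (Real.log p / a)
    gcongr
  have h2 : Real.sin (N * Real.log p / a) ^ 2 ≤ 1 := Real.sin_sq_le_one _
  have h3 : 0 ≤ Real.sin (N * Real.log p / a) ^ 2 := sq_nonneg _
  calc (4:ℝ) ^ 2 / p * β (Real.log p / a) ^ 2 * Real.sin (N * Real.log p / a) ^ 2
      ≤ (4:ℝ) ^ 2 / p * D ^ 2 * 1 := by gcongr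
    _ = _ := by ring

theorem t_TAILV : Pool.Agent.V8Lead.OR.S_TAILV := by
  intro β D hD
  obtain ⟨C, hC⟩ := Pool.Agent.Helper256.KM.mertens_inv
  have hC0 : 0 ≤ C := (abs_nonneg _).trans (hC 3 le_rfl)
  have hD0 : 0 ≤ D := (abs_nonneg _).trans (hD 0)
  have hl2 : (1:ℝ) / 2 < Real.log 2 := by have := Real.log_two_gt_d9; linarith
  refine ⟨16 * D ^ 2 * (1 + 2 * (2 * C + 1)) + 1, by positivity, fun δ hδ hδ2 => ?_⟩
  filter_upwards [eventually_ge_atTop (4 / δ)] with a ha N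
  have hδ1 : δ ≤ 1 := by linarith
  have hda : 4 ≤ δ * a := by
    rw [div_le_iff₀ hδ] at ha
    linarith
  have ha0 : 0 < a := lt_of_lt_of_le (by positivity) ha
  have ha4 : 4 ≤ a := by nlinarith
  have hlog : Real.log 2 ≤ Real.log (1 / δ) := by
    apply Real.log_le_log (by norm_num)
    rw [le_div_iff₀ hδ]; linarith
  -- the sum of the reciprocals
  have hbig : ∀ b : ℝ, 4 ≤ b → 3 ≤ ⌊Real.exp b⌋₊ := by
    intro b hb
    refine Nat.le_floor ?_
    have := Real.add_one_le_exp b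
    push_cast; linarith
  have h1 := abs_le.1 (hC _ (hbig a ha4))
  have h2 := abs_le.1 (hC _ (hbig (δ * a) hda))
  have h3 := abs_le.1 (log_floor ha0.le)
  have h4 := abs_le.1 (log_floor (b := δ * a) (by linarith))
  have h5 : Real.log (Real.log ⌊Real.exp a⌋₊) ≤ Real.log a := by
    refine Real.log_le_log (by linarith [h3.1]) ?_
    have : (⌊Real.exp a⌋₊ : ℝ) ≤ Real.exp a := Nat.floor_le (Real.exp_pos a).le
    have h6 : (0:ℝ) < ⌊Real.exp a⌋₊ := by
      have := hbig a ha4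
      exact_mod_cast (by omega : 0 < ⌊Real.exp a⌋₊)
    exact (Real.log_le_iff_le_exp h6).2 this
  have h6 : Real.log (δ * a) - Real.log 2 ≤ Real.log (Real.log ⌊Real.exp (δ * a)⌋₊) := by
    rw [← Real.log_div (by positivity) (by norm_num)]
    refine Real.log_le_log (by positivity) ?_
    linarith [h4.1]
  have h7 : Real.log (δ * a) = Real.log a - Real.log (1 / δ) := by
    rw [Real.log_mul hδ.ne' ha0.ne', one_div, Real.log_inv]; ring
  have hl21 : Real.log 2 ≤ 1 := by have := Real.log_two_lt_d9; linarith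
  have hsub : PX ⌊Real.exp (δ * a)⌋₊ ⊆ PX ⌊Real.exp a⌋₊ := by
    intro p hp
    rw [mem_PX_exp] at hp ⊢
    exact ⟨hp.1, hp.2.trans (by nlinarith)⟩
  have h8 : ∑ p ∈ (PX ⌊Real.exp a⌋₊).filter (fun p : ℕ => δ * a < Real.log p), (1:ℝ) / p =
      ∑ p ∈ PX ⌊Real.exp a⌋₊, (1:ℝ) / p - ∑ p ∈ PX ⌊Real.exp (δ * a)⌋₊, (1:ℝ) / p := by
    rw [← Finset.sum_sdiff hsub, add_sub_cancel_right]
    refine Finset.sum_congr ?_ fun _ _ => rfl
    ext p
    rw [Finset.mem_filter, Finset.mem_sdiff, mem_PX_exp, mem_PX_exp]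
    constructor
    · rintro ⟨h1, h2⟩
      exact ⟨h1, fun h => absurd h.2 (not_le.2 h2)⟩
    · rintro ⟨h1, h2⟩
      refine ⟨h1, ?_⟩
      by_contra h
      exact h2 ⟨h1.1, not_lt.1 h⟩
  have h9 : ∑ p ∈ (PX ⌊Real.exp a⌋₊).filter (fun p : ℕ => δ * a < Real.log p), (1:ℝ) / p ≤
      Real.log (1 / δ) + (2 * C + 1) := by
    rw [h8]
    linarith [h1.2, h2.1]
  have h10 : Real.log (1 / δ) + (2 * C + 1) ≤ (1 + 2 * (2 * C + 1)) * Real.log (1 / δ) := by
    nlinarith
  calc ∑ p ∈ (Prm ⌊Real.exp a⌋₊).filter (fun p : ℕ => δ * a < Real.log p), up β N a p ^ 2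
      ≤ ∑ p ∈ (PX ⌊Real.exp a⌋₊).filter (fun p : ℕ => δ * a < Real.log p), 16 * D ^ 2 * (1 / p) := by
        refine Finset.sum_le_sum fun p hp => ?_
        exact up_sq_le hD N a (Finset.mem_filter.1 (Finset.mem_filter.1 hp).1).2
    _ = 16 * D ^ 2 * ∑ p ∈ (PX ⌊Real.exp a⌋₊).filter (fun p : ℕ => δ * a < Real.log p), (1:ℝ) / p := by
        rw [Finset.mul_sum]
    _ ≤ 16 * D ^ 2 * ((1 + 2 * (2 * C + 1)) * Real.log (1 / δ)) := by gcongr; exact h9.trans h10
    _ ≤ _ := by nlinarith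

end

end Pool.Agent.V8H54.OR
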